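import Pool.Agent.Work.MP_936a99_bb.Interface

namespace Pool.Agent.Work.MP_936a99_bb3

open Matrix Pool.Agent.Work.MP_936a99_al_h7 Pool.Agent.Work.MP_936a99_bb

theorem card_bound (ι : Type) [Fintype ι] [DecidableEq ι] (p : ℕ) [hp : Fact p.Prime] (i0 : ι) :
    (p - 1) * Nat.card (SLI ι p) ≤ p ^ (Fintype.card ι ^ 2) := by
  classical
  let F : (ZMod p)ˣ × SLI ι p → Matrix ι ι (ZMod p) := fun x =>
    diagonal (Function.update (fun _ => (1 : ZMod p)) i0 (x.1 : ZMod p)) *
      (x.2 : Matrix ι ι (ZMod p))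
  have hdet : ∀ x, (F x).det = (x.1 : ZMod p) := by
    intro x
    have h2 : (x.2 : Matrix ι ι (ZMod p)).det = 1 := x.2.2
    simp only [F]
    rw [Matrix.det_mul, h2, mul_one, Matrix.det_diagonal,
      Finset.prod_update_of_mem (Finset.mem_univ i0)]
    simp
  have hinj : Function.Injective F := by
    rintro ⟨c, g⟩ ⟨c', g'⟩ h
    have h1 : c = c' := by
      apply Units.ext
      rw [← hdet (c, g), ← hdet (c', g'), h]
    subst h1
    have h3 : IsUnit (diagonal (Function.update (fun _ => (1 : ZMod p)) i0 (c : ZMod p)) :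
        Matrix ι ι (ZMod p)) := by
      rw [Matrix.isUnit_iff_isUnit_det, Matrix.det_diagonal,
        Finset.prod_update_of_mem (Finset.mem_univ i0)]
      simp
    have h4 : (g : Matrix ι ι (ZMod p)) = g' := h3.mul_left_cancel h
    rw [Subtype.ext h4]
  have h1 := Nat.card_le_card_of_injective F hinj
  rw [Nat.card_prod] at h1
  have h2 : Nat.card (ZMod p)ˣ = p - 1 := by
    rw [Nat.card_eq_fintype_card, ZMod.card_units]
  have h3 : Nat.card (Matrix ι ι (ZMod p)) = p ^ (Fintype.card ι ^ 2) := by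
    rw [Nat.card_eq_fintype_card]
    change Fintype.card (ι → ι → ZMod p) = _
    rw [Fintype.card_fun, Fintype.card_fun, ZMod.card, ← pow_mul, pow_two]
  rw [h2, h3] at h1
  exact h1

theorem mem_of_index_lt {G : Type} [Group G] [Finite G] {p : ℕ} (hp : p.Prime) (H : Subgroup G)
    (hH : H.index < p) {x : G} (hx : x ^ p = 1) : x ∈ H := by
  classical
  have : Fintype (G ⧸ H) := Fintype.ofFinite _
  have hcard : Fintype.card (G ⧸ H) < Fintype.card (Fin p) := by
    rw [Fintype.card_fin, ← Nat.card_eq_fintype_card]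
    exact hH
  obtain ⟨i, j, hij, hf⟩ := Fintype.exists_ne_map_eq_of_card_lt
    (fun i : Fin p => ((x ^ (i : ℕ) : G) : G ⧸ H)) hcard
  have key : ∀ a b : ℕ, a < b → b < p → ((x ^ a : G) : G ⧸ H) = ((x ^ b : G) : G ⧸ H) →
      x ∈ H := by
    intro a b hab hb h
    rw [QuotientGroup.eq] at h
    have h1 : (x ^ a)⁻¹ * x ^ b = x ^ (b - a) := by
      rw [inv_mul_eq_iff_eq_mul, ← pow_add]
      congr 1
      omega
    rw [h1] at h
    have hcop : Nat.Coprime (b - a) p :=
      (Nat.coprime_of_lt_prime (by omega) (by omega) hp).symm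
    obtain ⟨m, -, hm⟩ := Nat.exists_mul_mod_eq_one_of_coprime hcop hp.one_lt
    have h2 : (x ^ (b - a)) ^ m = x := by
      rw [← pow_mul, ← Nat.div_add_mod ((b - a) * m) p, hm, pow_add, pow_mul, hx, one_pow,
        one_mul, pow_one]
    rw [← h2]
    exact H.pow_mem h m
  rcases lt_or_gt_of_ne (fun h => hij (Fin.ext h)) with h | h
  · exact key _ _ h j.2 hf
  · exact key _ _ h i.2 hf.symm

theorem transvection_pow {ι : Type} [Fintype ι] [DecidableEq ι] {p : ℕ} {i j : ι} (hij : i ≠ j)
    (c : ZMod p) (k : ℕ) :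
    (Matrix.SpecialLinearGroup.transvection hij c : SLI ι p) ^ k
      = Matrix.SpecialLinearGroup.transvection hij (k * c) := by
  induction k with
  | zero => simp
  | succ k ih =>
    rw [pow_succ, ih, ← Matrix.SpecialLinearGroup.transvection_add]
    congr 1
    push_cast
    ring

theorem idx (hT : Stmt_TGEN) : Stmt_IDX := by
  intro ι _ _ hι B
  refine ⟨2 * B + 1, ?_⟩
  intro p hp H hpB hH
  have hp2 : 2 ≤ p := hp.out.two_le
  obtain ⟨i0⟩ : Nonempty ι := Fintype.card_pos_iff.1 (by omega)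
  have hidx : H.index < p := by
    have h1 := card_bound ι p i0
    rw [← H.card_mul_index] at h1
    have hm : 1 ≤ Fintype.card ι ^ 2 := Nat.one_le_pow _ _ (by omega)
    have h2 : p ^ (Fintype.card ι ^ 2) = p * p ^ (Fintype.card ι ^ 2 - 1) := by
      rw [← pow_succ', Nat.sub_add_cancel hm]
    have h3 : (p - 1) * (Nat.card H * H.index) ≤ (p - 1) * (Nat.card H * (2 * B)) := by
      calc (p - 1) * (Nat.card H * H.index) ≤ p * p ^ (Fintype.card ι ^ 2 - 1) := by
            rw [← h2]; exact h1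
        _ ≤ p * (B * Nat.card H) := Nat.mul_le_mul_left _ hH
        _ ≤ (2 * (p - 1)) * (B * Nat.card H) := Nat.mul_le_mul_right _ (by omega)
        _ = (p - 1) * (Nat.card H * (2 * B)) := by ring
    have h4 : Nat.card H * H.index ≤ Nat.card H * (2 * B) :=
      Nat.le_of_mul_le_mul_left h3 (by omega)
    have h5 : H.index ≤ 2 * B := Nat.le_of_mul_le_mul_left h4 Nat.card_pos
    omega
  apply hT ι p H
  intro i j hij c
  apply mem_of_index_lt hp.out H hidx
  rw [transvection_pow]
  simp

end Pool.Agent.Work.MP_936a99_bb3
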