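import Pool.Agent.Work.MP_936a99_bb.Fin

namespace Pool.Agent.Work.MP_936a99_bb3

open Matrix Pool.Agent.Work.MP_936a99_al_h7 Pool.Agent.Work.MP_936a99_bb

/-- the ring identity behind `diag(c, c⁻¹)` -/
theorem ring_key {K R : Type*} [Field K] [Ring R] [Algebra K R] (e f : R) (c : K) (hc : c ≠ 0)
    (hee : e * e = 0) (hff : f * f = 0) (hefe : e * f * e = e) (hfef : f * e * f = f) :
    (1 + c • e) * (1 + (-c⁻¹) • f) * (1 + (c - 1) • e) * (1 + (1 : K) • f) * (1 + (-1 : K) • e)
      = 1 + (c - 1) • (e * f) + (c⁻¹ - 1) • (f * e) := by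
  have hefe' : e * (f * e) = e := by rw [← mul_assoc, hefe]
  have hfef' : f * (e * f) = f := by rw [← mul_assoc, hfef]
  have h1 : (1 + c • e) * (1 + (-c⁻¹) • f) = 1 + c • e - c⁻¹ • f - e * f := by
    simp only [mul_add, add_mul, one_mul, mul_one, smul_mul_smul_comm]
    rw [mul_neg, mul_inv_cancel₀ hc]
    module
  have h2 : (1 + c • e) * (1 + (-c⁻¹) • f) * (1 + (c - 1) • e)
      = 1 + c • e - c⁻¹ • f - e * f + (c - 1) • e - (1 - c⁻¹) • (f * e) - (c - 1) • e := by
    rw [h1]
    simp only [mul_add, add_mul, sub_mul, one_mul, mul_one, smul_mul_smul_comm, mul_smul_comm, smul_mul_assoc,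
      hee, hefe, smul_zero, add_zero]
    have : (c - 1) • c⁻¹ • (f * e) = (1 - c⁻¹) • (f * e) := by
      rw [smul_smul, sub_mul, mul_inv_cancel₀ hc, one_mul]
    rw [smul_sub, smul_sub, this]
    abel
  have h3 : (1 + (1 : K) • f) * (1 + (-1 : K) • e) = 1 + f - e - f * e := by
    simp only [mul_add, add_mul, one_mul, mul_one, one_smul, neg_smul, mul_neg, neg_mul]
    abel
  rw [mul_assoc _ (1 + (1 : K) • f), h3, h2]
  have h4 : (1 + c • e - c⁻¹ • f - e * f + (c - 1) • e - (1 - c⁻¹) • (f * e) - (c - 1) • e : R)
      = 1 + c • e - c⁻¹ • f - e * f - (1 - c⁻¹) • (f * e) := by abel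
  rw [h4]
  simp only [mul_add, mul_sub, add_mul, sub_mul, one_mul, mul_one, smul_mul_assoc, hee, hff,
    mul_assoc, hefe', hfef', mul_zero, smul_zero]
  have e1 : f * (e * (f * e)) = f * e := by rw [hefe']
  have e2 : e * (f * (e * f)) = e * f := by rw [hfef']
  have e3 : e * (e * f) = 0 := by rw [← mul_assoc, hee, zero_mul]
  have e4 : f * (f * e) = 0 := by rw [← mul_assoc, hff, zero_mul]
  simp only [e1, e2, e3, e4, smul_zero, mul_zero, hefe', hfef', hee, hff]
  module

theorem tgen : Stmt_TGEN := by
  classical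
  intro ι _ _ p _ H h
  rcases subsingleton_or_nontrivial ι with hι | hι
  · rw [eq_top_iff]
    intro g _
    have hg : g = 1 := by
      apply Subtype.ext
      ext i j
      have hij : i = j := Subsingleton.elim _ _
      subst hij
      have h1 : (g : Matrix ι ι (ZMod p)).det = 1 := g.2
      haveI : Unique ι := ⟨⟨i⟩, fun a => Subsingleton.elim _ _⟩
      rw [Matrix.det_unique] at h1
      have h2 : (default : ι) = i := Subsingleton.elim _ _
      rw [h2] at h1
      rw [h1]
      simp
    rw [hg]
    exact H.one_mem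
  · rw [eq_top_iff]
    intro g _
    refine Matrix.SpecialLinearGroup.diagonal_transvection_induction' (fun g => g ∈ H) g ?_ h
      (fun a b ha hb => H.mul_mem ha hb)
    intro i j hij c hc
    have key : Matrix.SpecialLinearGroup.diag2n hij c hc =
        Matrix.SpecialLinearGroup.transvection hij c *
        Matrix.SpecialLinearGroup.transvection hij.symm (-c⁻¹) *
        Matrix.SpecialLinearGroup.transvection hij (c - 1) *
        Matrix.SpecialLinearGroup.transvection hij.symm 1 *
        Matrix.SpecialLinearGroup.transvection hij (-1) := by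
      apply Subtype.ext
      simp only [Matrix.SpecialLinearGroup.coe_mul, Matrix.SpecialLinearGroup.transvection_coe]
      rw [Matrix.SpecialLinearGroup.diag2n_coe]
      have hk := ring_key (single i j (1 : ZMod p)) (single j i 1) c hc
        (single_mul_single_of_ne _ _ _ _ hij.symm _) (single_mul_single_of_ne _ _ _ _ hij _)
        (by simp) (by simp)
      rw [single_mul_single_same, single_mul_single_same, mul_one] at hk
      simp only [smul_single, smul_eq_mul, mul_one] at hk
      rw [hk]
      ext a b
      by_cases hab : a = b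
      · subst hab
        by_cases ha : a = i
        · subst ha
          simp [hij, hij.symm]
        · by_cases ha' : a = j
          · subst ha'
            simp [ha, Ne.symm ha]
          · simp [ha, ha', Ne.symm ha, Ne.symm ha']
      · have h1 : ¬(i = a ∧ i = b) := fun h => hab (h.1.symm.trans h.2)
        have h2 : ¬(j = a ∧ j = b) := fun h => hab (h.1.symm.trans h.2)
        simp [single_apply, hab, h1, h2]
    rw [key]
    exact H.mul_mem (H.mul_mem (H.mul_mem (H.mul_mem (h _ _ _ _) (h _ _ _ _)) (h _ _ _ _))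
      (h _ _ _ _)) (h _ _ _ _)

end Pool.Agent.Work.MP_936a99_bb3
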